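import Pool.Agent.Q133.ArcFam

/-!
# No class of arc `k`-visibility graphs contains another one

The definitions `Arc`, `Arc.pts`, `Sees` and `IsArcVis` are in `Pool/Agent/Q133/ArcDefs.lean`.
-/

namespace Pool.Agent.Results.MP_73fdb2_co.NoInclusions

open Q133.ArcVis

/-- For all `i ≠ j` there is an arc `j`-visibility graph which is not an arc `i`-visibility
graph. -/
theorem result : ∀ i j : ℕ, i ≠ j →
    ∃ (V : Type) (_ : Finite V) (G : SimpleGraph V), IsArcVis j G ∧ ¬ IsArcVis i G :=
  no_inclusion

end Pool.Agent.Results.MP_73fdb2_co.NoInclusions
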